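import Mathlib

/-!
# The Bregman distance of the Thomas-Fermi term
-/

set_option autoImplicit false

open Set Filter Topology

namespace Pool.Agent.Q235.TC

/-- `G(t,v) = t^p/p - t v + v^{p'}/p'` -/
noncomputable def G (p t v : ℝ) : ℝ := t ^ p / p - t * v + v ^ (p / (p - 1)) / (p / (p - 1))

/-- the exponent `1/(2(p-1))` -/
noncomputable def kap (p : ℝ) : ℝ := 1 / (2 * (p - 1))

lemma conj {p : ℝ} (hp : 1 < p) : Real.HolderConjugate p (p / (p - 1)) :=
  Real.HolderConjugate.conjExponent hp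

lemma conj_pos {p : ℝ} (hp : 1 < p) : 0 < p / (p - 1) := div_pos (by linarith) (by linarith)

lemma G_nonneg {p : ℝ} (hp : 1 < p) {t v : ℝ} (ht : 0 ≤ t) (hv : 0 ≤ v) : 0 ≤ G p t v := by
  have := Real.young_inequality_of_nonneg ht hv (conj hp)
  unfold G
  linarith

lemma G_cont {p : ℝ} (hp : 1 < p) : Continuous (fun q : ℝ × ℝ => G p q.1 q.2) := by
  unfold G
  have h1 : Continuous fun t : ℝ => t ^ p := Real.continuous_rpow_const (by linarith)
  have h2 : Continuous fun t : ℝ => t ^ (p / (p - 1)) := Real.continuous_rpow_const (conj_pos hp).le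
  exact (((h1.comp continuous_fst).div_const _).sub (continuous_fst.mul continuous_snd)).add
    ((h2.comp continuous_snd).div_const _)

/-- strict positivity away from the minimum -/
lemma G_pos {p : ℝ} (hp : 1 < p) {t v : ℝ} (ht : 0 ≤ t) (hv : 0 ≤ v) (h : √t ≠ v ^ kap p) :
    0 < G p t v := by
  have hp1 : 0 < p - 1 := by linarith
  have hp0 : 0 < p := by linarith
  set τ : ℝ := v ^ (1 / (p - 1)) with hτ
  have hτ0 : 0 ≤ τ := Real.rpow_nonneg hv _
  have hsq : √τ = v ^ kap p := by
    rw [Real.sqrt_eq_rpow, hτ, ← Real.rpow_mul hv]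
    congr 1
    unfold kap
    field_simp
  have hne : t ≠ τ := by
    rintro rfl
    exact h hsq
  have hv1 : v = τ ^ (p - 1) := by
    rw [hτ, ← Real.rpow_mul hv, one_div_mul_cancel hp1.ne', Real.rpow_one]
  have hv2 : v ^ (p / (p - 1)) = τ ^ p := by
    rw [hτ, ← Real.rpow_mul hv]; congr 1; ring
  rcases eq_or_lt_of_le hτ0 with h0 | h0
  · have hv0 : v = 0 := by rw [hv1, ← h0, Real.zero_rpow hp1.ne']
    have ht0 : 0 < t := lt_of_le_of_ne ht (fun h => hne (by rw [← h, h0]))
    unfold G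
    rw [hv0, Real.zero_rpow (conj_pos hp).ne']
    have : 0 < t ^ p := Real.rpow_pos_of_pos ht0 _
    have h3 : 0 < t ^ p / p := by positivity
    simp only [mul_zero, zero_div, sub_zero, add_zero]
    exact h3
  · have hs : -1 ≤ t / τ - 1 := by
      have : 0 ≤ t / τ := by positivity
      linarith
    have hs' : t / τ - 1 ≠ 0 := by
      intro h1
      apply hne
      have : t / τ = 1 := by linarith
      rwa [div_eq_one_iff_eq h0.ne'] at this
    have hB := one_add_mul_self_lt_rpow_one_add hs hs' hp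
    have e1 : (1 + (t / τ - 1)) ^ p = t ^ p / τ ^ p := by
      rw [show 1 + (t / τ - 1) = t / τ by ring, Real.div_rpow ht hτ0]
    rw [e1] at hB
    have hτp : 0 < τ ^ p := Real.rpow_pos_of_pos h0 _
    rw [lt_div_iff₀ hτp] at hB
    have e2 : τ ^ p = τ * τ ^ (p - 1) := by
      rw [← Real.rpow_one_add' hτ0 (by linarith)]; congr 1; ring
    have e3 : (1 + p * (t / τ - 1)) * τ ^ p = τ ^ p + p * (t * τ ^ (p - 1) - τ ^ p) := by
      have : t / τ * τ ^ p = t * τ ^ (p - 1) := by rw [e2]; field_simp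
      calc (1 + p * (t / τ - 1)) * τ ^ p = τ ^ p + p * (t / τ * τ ^ p - τ ^ p) := by ring
        _ = _ := by rw [this]
    rw [e3] at hB
    unfold G
    rw [hv2, hv1] at *
    have e4 : τ ^ p / (p / (p - 1)) = (p - 1) * τ ^ p / p := by field_simp
    rw [e4]
    have e5 : t ^ p / p - t * τ ^ (p - 1) + (p - 1) * τ ^ p / p
        = (t ^ p - (τ ^ p + p * (t * τ ^ (p - 1) - τ ^ p))) / p := by field_simp; ring
    rw [e5]
    exact div_pos (by linarith) hp0

/-- the soft coercivity estimate -/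
lemma soft {p : ℝ} (hp : 1 < p) {W τ : ℝ} (hW : 0 ≤ W) (hτ : 0 < τ) :
    ∃ C : ℝ, 0 < C ∧ ∀ t v : ℝ, 0 ≤ t → 0 ≤ v → v ≤ W → |√t - v ^ kap p| ≤ τ + C * G p t v := by
  have hp1 : 0 < p - 1 := by linarith
  have hp0 : 0 < p := by linarith
  have hk : 0 < kap p := by unfold kap; positivity
  set Wk : ℝ := W ^ kap p with hWk
  have hWk0 : 0 ≤ Wk := Real.rpow_nonneg hW _
  set M : ℝ := max (max 4 (2 * Wk)) ((p * (W + 1)) ^ (1 / (p - 1))) with hM
  have hM4 : 4 ≤ M := (le_max_left _ _).trans (le_max_left _ _)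
  have hMW : 2 * Wk ≤ M := (le_max_right _ _).trans (le_max_left _ _)
  have hMp : (p * (W + 1)) ^ (1 / (p - 1)) ≤ M := le_max_right _ _
  -- large values
  have hlarge : ∀ t v : ℝ, M ≤ t → 0 ≤ v → v ≤ W → |√t - v ^ kap p| ≤ G p t v := by
    intro t v ht hv hvW
    have ht4 : 4 ≤ t := hM4.trans ht
    have ht0 : 0 < t := by linarith
    have h1 : p * (W + 1) ≤ t ^ (p - 1) := by
      have := Real.rpow_le_rpow (by positivity) (hMp.trans ht) hp1.le
      rwa [← Real.rpow_mul (by positivity), one_div_mul_cancel hp1.ne', Real.rpow_one] at this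
    have h2 : t ^ p = t * t ^ (p - 1) := by
      rw [← Real.rpow_one_add' ht0.le (by linarith)]; congr 1; ring
    have h3 : t * (W + 1) ≤ t ^ p / p := by
      rw [h2, le_div_iff₀ hp0]
      nlinarith
    have h4 : t ≤ G p t v := by
      unfold G
      have h5 : 0 ≤ v ^ (p / (p - 1)) / (p / (p - 1)) :=
        div_nonneg (Real.rpow_nonneg hv _) (conj_pos hp).le
      have h6 : t * v ≤ t * W := mul_le_mul_of_nonneg_left hvW ht0.le
      linarith
    have h7 : √t ≤ t / 2 := by
      rw [Real.sqrt_le_left (by linarith)]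
      nlinarith
    have h8 : v ^ kap p ≤ Wk := Real.rpow_le_rpow hv hvW hk.le
    have h9 : 0 ≤ v ^ kap p := Real.rpow_nonneg hv _
    have h10 := Real.sqrt_nonneg t
    rw [abs_le]
    constructor <;> linarith
  -- the compact set
  set K : Set (ℝ × ℝ) := (Icc 0 M ×ˢ Icc 0 W) ∩ {q | τ ≤ |√q.1 - q.2 ^ kap p|} with hK
  have hcl : IsClosed {q : ℝ × ℝ | τ ≤ |√q.1 - q.2 ^ kap p|} := by
    refine isClosed_le continuous_const ?_
    exact (((Real.continuous_sqrt.comp continuous_fst)).sub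
      ((Real.continuous_rpow_const hk.le).comp continuous_snd)).abs
  have hKc : IsCompact K := (isCompact_Icc.prod isCompact_Icc).inter_right hcl
  obtain ⟨c, hc0, hc⟩ : ∃ c : ℝ, 0 < c ∧ ∀ q ∈ K, c ≤ G p q.1 q.2 := by
    rcases K.eq_empty_or_nonempty with he | hne
    · exact ⟨1, one_pos, fun q hq => by rw [he] at hq; exact absurd hq (notMem_empty q)⟩
    · obtain ⟨q0, hq0, hmin⟩ := hKc.exists_isMinOn hne (G_cont hp).continuousOn
      refine ⟨G p q0.1 q0.2, ?_, fun q hq => hmin hq⟩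
      refine G_pos hp hq0.1.1.1 hq0.1.2.1 (fun h => ?_)
      have : τ ≤ |√q0.1 - q0.2 ^ kap p| := hq0.2
      rw [h, sub_self, abs_zero] at this
      linarith
  refine ⟨max 1 ((√M + Wk) / c), lt_of_lt_of_le one_pos (le_max_left _ _), fun t v ht hv hvW => ?_⟩
  have hG := G_nonneg hp ht hv
  rcases le_total M t with h1 | h1
  · have h2 := hlarge t v h1 hv hvW
    have h3 : G p t v ≤ max 1 ((√M + Wk) / c) * G p t v := by
      have := le_max_left 1 ((√M + Wk) / c)
      nlinarith
    linarith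
  · rcases lt_or_ge (|√t - v ^ kap p|) τ with h2 | h2
    · have : 0 ≤ max 1 ((√M + Wk) / c) * G p t v :=
        mul_nonneg (zero_le_one.trans (le_max_left _ _)) hG
      linarith
    · have h3 := hc (t, v) ⟨⟨⟨ht, h1⟩, ⟨hv, hvW⟩⟩, h2⟩
      simp only at h3
      have h4 : |√t - v ^ kap p| ≤ √M + Wk := by
        have e1 : √t ≤ √M := Real.sqrt_le_sqrt h1
        have e2 : v ^ kap p ≤ Wk := Real.rpow_le_rpow hv hvW hk.le
        have e3 : 0 ≤ v ^ kap p := Real.rpow_nonneg hv _
        have e4 := Real.sqrt_nonneg t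
        rw [abs_le]
        constructor <;> linarith
      have h5 : √M + Wk ≤ (√M + Wk) / c * G p t v := by
        rw [div_mul_eq_mul_div, le_div_iff₀ hc0]
        exact mul_le_mul_of_nonneg_left h3 (by positivity)
      have h6 : (√M + Wk) / c * G p t v ≤ max 1 ((√M + Wk) / c) * G p t v :=
        mul_le_mul_of_nonneg_right (le_max_right _ _) hG
      linarith

/-- the root of the limiting density -/
noncomputable def gs (p r : ℝ) : ℝ := (max (1 / r - 1) 0) ^ kap p

lemma gs_nonneg (p r : ℝ) : 0 ≤ gs p r := Real.rpow_nonneg (le_max_right _ _) _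

lemma gs_contAt {p : ℝ} (hp : 1 < p) {r : ℝ} (hr : r ≠ 0) : ContinuousAt (gs p) r := by
  have hk : 0 < kap p := by unfold kap; have : 0 < p - 1 := by linarith
                            positivity
  unfold gs
  have h1 : ContinuousAt (fun r : ℝ => max (1 / r - 1) 0) r :=
    ((continuousAt_const.div continuousAt_id hr).sub continuousAt_const).max continuousAt_const
  exact h1.rpow_const (Or.inr hk.le)

/-- quantitative failure of midpoint convexity of the limiting root near `r = 1` -/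
lemma gap {p : ℝ} (hp : 3 / 2 < p) :
    ∃ h r₀ δ m : ℝ, 0 < h ∧ 1 / 2 ≤ r₀ ∧ 0 < δ ∧ 0 < m ∧ r₀ + δ + 2 * h ≤ 2 ∧
      ∀ r ∈ Icc r₀ (r₀ + δ), (gs p r + gs p (r + 2 * h)) / 2 + m ≤ gs p (r + h) := by
  have hp1 : 0 < p - 1 := by linarith
  have hk : 0 < kap p := by unfold kap; positivity
  set L : ℝ := (2:ℝ) ^ (2 * (p - 1)) with hL
  have hL2 : 2 < L := by
    have : (2:ℝ) ^ (1:ℝ) < (2:ℝ) ^ (2 * (p - 1)) :=
      Real.rpow_lt_rpow_of_exponent_lt (by norm_num) (by linarith)
    rwa [Real.rpow_one] at this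
  have hLk : L ^ kap p = 2 := by
    rw [hL, ← Real.rpow_mul (by norm_num)]
    unfold kap
    rw [mul_one_div_cancel (by positivity), Real.rpow_one]
  set h : ℝ := (L - 2) / (4 * (L - 1)) with hh
  have hL1 : 0 < L - 1 := by linarith
  have hh0 : 0 < h := div_pos (by linarith) (by linarith)
  have hh4 : h < 1 / 4 := by
    rw [hh, div_lt_iff₀ (by linarith)]; linarith
  have hkey : 2 * h / (1 - 2 * h) < L * (h / (1 - h)) := by
    have e0 : L * (h / (1 - h)) = L * h / (1 - h) := by ring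
    rw [e0, div_lt_div_iff₀ (by linarith) (by linarith)]
    have e1 : 4 * (L - 1) * h = L - 2 := by rw [hh]; field_simp
    nlinarith [mul_pos hh0 hL1]
  set r₀ : ℝ := 1 - 2 * h with hr₀
  have hr₀0 : 1 / 2 ≤ r₀ := by rw [hr₀]; linarith
  have hq0 : 0 < gs p (r₀ + h) - (gs p r₀ + gs p (r₀ + 2 * h)) / 2 := by
    have e1 : gs p (r₀ + 2 * h) = 0 := by
      unfold gs; rw [hr₀]; norm_num; exact Real.zero_rpow hk.ne'
    have e2 : gs p r₀ = (2 * h / (1 - 2 * h)) ^ kap p := by
      unfold gs; rw [hr₀, max_eq_left]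
      · congr 1; field_simp [show (1 - 2 * h) ≠ 0 by linarith]; ring
      · rw [sub_nonneg, le_div_iff₀ (by linarith)]; linarith
    have e3 : gs p (r₀ + h) = (h / (1 - h)) ^ kap p := by
      unfold gs; rw [hr₀, max_eq_left]
      · congr 1
        rw [show 1 - 2 * h + h = 1 - h by ring]
        field_simp [show (1 - h) ≠ 0 by linarith]; ring
      · rw [sub_nonneg, le_div_iff₀ (by linarith)]; linarith
    have e4 : (2 * h / (1 - 2 * h)) ^ kap p < 2 * (h / (1 - h)) ^ kap p := by
      have h5 : (L * (h / (1 - h))) ^ kap p = 2 * (h / (1 - h)) ^ kap p := by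
        rw [Real.mul_rpow (by linarith) (div_nonneg hh0.le (by linarith)), hLk]
      rw [← h5]
      exact Real.rpow_lt_rpow (div_nonneg (by linarith) (by linarith)) hkey hk
    rw [e1, e2, e3]
    linarith
  have hcont : ContinuousAt (fun r => gs p (r + h) - (gs p r + gs p (r + 2 * h)) / 2) r₀ := by
    have hp' : 1 < p := by linarith
    have c1 : ContinuousAt (fun r => gs p (r + h)) r₀ :=
      ContinuousAt.comp (g := gs p) (gs_contAt hp' (by linarith)) (by fun_prop)
    have c2 : ContinuousAt (fun r => gs p r) r₀ := gs_contAt hp' (by linarith)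
    have c3 : ContinuousAt (fun r => gs p (r + 2 * h)) r₀ :=
      ContinuousAt.comp (g := gs p) (gs_contAt hp' (by linarith)) (by fun_prop)
    exact c1.sub ((c2.add c3).div_const 2)
  set q0 := gs p (r₀ + h) - (gs p r₀ + gs p (r₀ + 2 * h)) / 2 with hq0def
  have hev : ∀ᶠ r in 𝓝 r₀, q0 / 2 < gs p (r + h) - (gs p r + gs p (r + 2 * h)) / 2 :=
    hcont.eventually (lt_mem_nhds (by simp only [← hq0def]; linarith))
  obtain ⟨ε, hε, hball⟩ := Metric.eventually_nhds_iff.mp hev
  refine ⟨h, r₀, min (ε / 2) (1 / 2), q0 / 2, hh0, hr₀0, by positivity, by linarith, ?_, ?_⟩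
  · have := min_le_right (ε / 2) (1 / 2)
    rw [hr₀]; linarith
  · intro r hr
    have h1 := min_le_left (ε / 2) (1 / 2)
    have h2 : dist r r₀ < ε := by
      rw [Real.dist_eq, abs_of_nonneg (by linarith [hr.1])]
      linarith [hr.2]
    have := hball h2
    linarith

end Pool.Agent.Q235.TC
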