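import Mathlib

/-!
# Thomas-Fermi-von Weizsäcker theory of an atom: definitions
-/

set_option autoImplicit false

open MeasureTheory
open scoped ContDiff

namespace Pool.Agent.Q235.TC

/-- `ρ` is an admissible density (`ρ ≥ 0`, `ρ ∈ L¹ ∩ L^p`, `D(ρ,ρ) < ∞`) and `g ∈ L²` is the
distributional gradient of `ρ^{1/2}`. -/
structure Admissible (p : ℝ) (ρ : EuclideanSpace ℝ (Fin 3) → ℝ)
    (g : EuclideanSpace ℝ (Fin 3) → EuclideanSpace ℝ (Fin 3)) : Prop where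
  nonneg : ∀ x, 0 ≤ ρ x
  integrable : Integrable ρ
  integrable_rpow : Integrable (fun x => ρ x ^ p)
  coulomb : Integrable (fun q : EuclideanSpace ℝ (Fin 3) × EuclideanSpace ℝ (Fin 3) =>
    ρ q.1 * ρ q.2 / ‖q.1 - q.2‖)
  grad_memLp : MemLp g 2
  grad_weak : ∀ φ : EuclideanSpace ℝ (Fin 3) → ℝ, ContDiff ℝ ∞ φ → HasCompactSupport φ →
    ∀ v : EuclideanSpace ℝ (Fin 3),
      ∫ x, √(ρ x) * fderiv ℝ φ x v = -∫ x, inner ℝ (g x) v * φ x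

/-- The TFW functional of an atom with nuclear charge `z` (`g` is the gradient of `ρ^{1/2}`). -/
noncomputable def energy (A γ p z : ℝ) (ρ : EuclideanSpace ℝ (Fin 3) → ℝ)
    (g : EuclideanSpace ℝ (Fin 3) → EuclideanSpace ℝ (Fin 3)) : ℝ :=
  A * (∫ x, ‖g x‖ ^ 2) + γ / p * (∫ x, ρ x ^ p) - (∫ x, z / ‖x‖ * ρ x)
    + 1 / 2 * ∫ q : EuclideanSpace ℝ (Fin 3) × EuclideanSpace ℝ (Fin 3),
        ρ q.1 * ρ q.2 / ‖q.1 - q.2‖

/-- `ρ` minimises the TFW energy among the admissible densities of mass at most `lam`. -/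
def IsMinimiser (A γ p z lam : ℝ) (ρ : EuclideanSpace ℝ (Fin 3) → ℝ)
    (g : EuclideanSpace ℝ (Fin 3) → EuclideanSpace ℝ (Fin 3)) : Prop :=
  Admissible p ρ g ∧ ∫ x, ρ x ≤ lam ∧
    ∀ ρ' g', Admissible p ρ' g' → ∫ x, ρ' x ≤ lam → energy A γ p z ρ g ≤ energy A γ p z ρ' g'

/-- `ρ^{1/2}` is (almost everywhere) a convex function of `|x|`. -/
def HasConvexRoot (ρ : EuclideanSpace ℝ (Fin 3) → ℝ) : Prop :=
  ∃ f : ℝ → ℝ, ConvexOn ℝ (Set.Ici 0) f ∧ ∀ᵐ x, √(ρ x) = f ‖x‖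

/-- `ρ^{1/2}` is (almost everywhere) a log convex function of `|x|`. -/
def HasLogConvexRoot (ρ : EuclideanSpace ℝ (Fin 3) → ℝ) : Prop :=
  ∃ f : ℝ → ℝ, (∀ r, 0 ≤ r → 0 < f r) ∧ ConvexOn ℝ (Set.Ici 0) (fun r => Real.log (f r)) ∧
    ∀ᵐ x, √(ρ x) = f ‖x‖

end Pool.Agent.Q235.TC
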