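import Mathlib
import Pool.Agent.Q235.TC.Basic
import Pool.Agent.Q233.TFShell

/-!
# Densities with a convex root are far from the Thomas-Fermi limit
-/

set_option autoImplicit false

open Set Filter Topology MeasureTheory

namespace Pool.Agent.Q235.TC

abbrev E3 := EuclideanSpace ℝ (Fin 3)

/-- the limiting potential `(1/r - 1)_+` -/
noncomputable def ww (r : ℝ) : ℝ := max (1 / r - 1) 0

lemma ww_nonneg (r : ℝ) : 0 ≤ ww r := le_max_right _ _

lemma ww_meas : Measurable ww := by unfold ww; fun_prop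

lemma ww_le {r : ℝ} (hr : 1 / 2 ≤ r) : ww r ≤ 1 := by
  unfold ww
  refine max_le ?_ zero_le_one
  rw [sub_le_iff_le_add, div_le_iff₀ (by linarith)]
  linarith

/-- the one dimensional estimate -/
lemma gap1 {p : ℝ} (hp : 3 / 2 < p) : ∃ c : ℝ, 0 < c ∧ ∀ f : ℝ → ℝ, (∀ r, 0 ≤ f r) →
    ConvexOn ℝ (Ici 0) f → IntegrableOn (fun r => G p (f r ^ 2) (ww r)) (Icc (1/2) 2) →
    c ≤ ∫ r in (1/2:ℝ)..2, G p (f r ^ 2) (ww r) := by
  have hp1 : 1 < p := by linarith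
  obtain ⟨h, r₀, δ, m, hh, hr₀, hδ, hm, hle, hgap⟩ := gap hp
  obtain ⟨C, hC, hsoft⟩ := soft (W := 1) hp1 zero_le_one (by positivity : 0 < m / 4)
  refine ⟨m * δ / (4 * C), by positivity, fun f hf0 hfc hint => ?_⟩
  set Γ : ℝ → ℝ := fun r => G p (f r ^ 2) (ww r) with hΓ
  have hΓ0 : ∀ r, 0 ≤ Γ r := fun r => G_nonneg hp1 (sq_nonneg _) (ww_nonneg r)
  have hII : ∀ a b : ℝ, a ∈ Icc (1/2:ℝ) 2 → b ∈ Icc (1/2:ℝ) 2 → IntervalIntegrable Γ volume a b := by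
    intro a b ha hb
    refine IntegrableOn.intervalIntegrable (hint.mono_set ?_)
    exact ordConnected_Icc.uIcc_subset ha hb
  have he : ∀ s : ℝ, 1 / 2 ≤ s → |f s - gs p s| ≤ m / 4 + C * Γ s := by
    intro s hs
    have := hsoft (f s ^ 2) (ww s) (sq_nonneg _) (ww_nonneg s) (ww_le hs)
    rw [Real.sqrt_sq (hf0 s)] at this
    exact this
  have hpt : ∀ r ∈ Icc r₀ (r₀ + δ), m / 2 ≤ C * (Γ (r + h) + (Γ r + Γ (r + 2 * h)) / 2) := by
    intro r hr
    have h1 := hgap r hr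
    have h2 := abs_le.mp (he r (hr₀.trans hr.1))
    have h3 := abs_le.mp (he (r + h) (by linarith [hr.1]))
    have h4 := abs_le.mp (he (r + 2 * h) (by linarith [hr.1]))
    have h5 : f (r + h) ≤ (f r + f (r + 2 * h)) / 2 := by
      have := hfc.2 (show r ∈ Ici (0:ℝ) by simp only [mem_Ici]; linarith [hr.1])
        (show r + 2 * h ∈ Ici (0:ℝ) by simp only [mem_Ici]; linarith [hr.1])
        (by norm_num : (0:ℝ) ≤ 1/2) (by norm_num : (0:ℝ) ≤ 1/2) (by norm_num)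
      simp only [smul_eq_mul] at this
      rw [show (1/2:ℝ) * r + 1/2 * (r + 2 * h) = r + h by ring] at this
      linarith
    linarith [h2.1, h2.2, h3.1, h3.2, h4.1, h4.2]
  have hIcc : ∀ j : ℝ, 0 ≤ j → j ≤ 2 * h → r₀ + j ∈ Icc (1/2:ℝ) 2 ∧ r₀ + δ + j ∈ Icc (1/2:ℝ) 2 := by
    intro j hj0 hj
    refine ⟨⟨by linarith, by linarith⟩, ⟨by linarith, by linarith⟩⟩
  have hsh : ∀ j : ℝ, 0 ≤ j → j ≤ 2 * h → IntervalIntegrable (fun r => Γ (r + j)) volume r₀ (r₀ + δ) ∧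
      ∫ r in r₀..(r₀ + δ), Γ (r + j) ≤ ∫ r in (1/2:ℝ)..2, Γ r := by
    intro j hj0 hj
    obtain ⟨m1, m2⟩ := hIcc j hj0 hj
    have hI := hII _ _ m1 m2
    refine ⟨?_, ?_⟩
    · have := hI.comp_add_right j
      simpa using this
    · rw [intervalIntegral.integral_comp_add_right]
      refine intervalIntegral.integral_mono_interval m1.1 (by linarith) m2.2 (ae_of_all _ hΓ0) ?_
      exact hII _ _ (by norm_num) (by norm_num)
  obtain ⟨i0, v0⟩ := hsh 0 le_rfl (by linarith)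
  obtain ⟨i1, v1⟩ := hsh h hh.le (by linarith)
  obtain ⟨i2, v2⟩ := hsh (2 * h) (by linarith) le_rfl
  simp only [add_zero] at i0 v0
  have hmono : ∫ r in r₀..(r₀ + δ), m / 2 ≤ ∫ r in r₀..(r₀ + δ), C * (Γ (r + h) + (Γ r + Γ (r + 2 * h)) / 2) := by
    refine intervalIntegral.integral_mono_on (by linarith) intervalIntegrable_const ?_ hpt
    exact ((i1.add ((i0.add i2).div_const 2)).const_mul C)
  rw [intervalIntegral.integral_const, intervalIntegral.integral_const_mul,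
    intervalIntegral.integral_add i1 ((i0.add i2).div_const 2), intervalIntegral.integral_div,
    intervalIntegral.integral_add i0 i2, smul_eq_mul] at hmono
  set I := ∫ r in (1/2:ℝ)..2, Γ r with hI
  have h6 : (r₀ + δ - r₀) * (m / 2) ≤ C * (I + (I + I) / 2) := by
    refine hmono.trans (mul_le_mul_of_nonneg_left ?_ hC.le)
    linarith
  rw [div_le_iff₀ (by positivity)]
  nlinarith

open Pool.Agent.Q233.TFShell in
/-- the estimate in `ℝ³` -/
theorem gap3 {p : ℝ} (hp : 3 / 2 < p) : ∃ c : ℝ, 0 < c ∧ ∀ ρ : E3 → ℝ, (∀ x, 0 ≤ ρ x) →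
    Integrable (fun x => G p (ρ x) (ww ‖x‖)) →
    (∃ f : ℝ → ℝ, ConvexOn ℝ (Ici 0) f ∧ ∀ᵐ x, √(ρ x) = f ‖x‖) →
    c ≤ ∫ x, G p (ρ x) (ww ‖x‖) := by
  have hp1 : 1 < p := by linarith
  obtain ⟨c, hc, h1⟩ := gap1 hp
  refine ⟨Real.pi * c, by positivity, fun ρ hρ0 hint ⟨f₁, hf₁, hae₁⟩ => ?_⟩
  obtain ⟨f, hf0, hf, hae⟩ : ∃ f : ℝ → ℝ, (∀ r, 0 ≤ f r) ∧ ConvexOn ℝ (Ici 0) f ∧
      ∀ᵐ x : E3, √(ρ x) = f ‖x‖ := by
    refine ⟨fun r => max (f₁ r) 0, fun r => le_max_right _ _, ?_, ?_⟩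
    · exact hf₁.sup (convexOn_const 0 (convex_Ici 0))
    · filter_upwards [hae₁] with x hx
      rw [← hx, max_eq_left (Real.sqrt_nonneg _)]
  set Γ : ℝ → ℝ := fun r => G p (f r ^ 2) (ww r) with hΓ
  have hΓ0 : ∀ r, 0 ≤ Γ r := fun r => G_nonneg hp1 (sq_nonneg _) (ww_nonneg r)
  have hcongr : (fun x : E3 => G p (ρ x) (ww ‖x‖)) =ᵐ[volume] (fun x : E3 => Γ ‖x‖) := by
    filter_upwards [hae] with x hx
    simp only [hΓ]
    rw [← hx, Real.sq_sqrt (hρ0 x)]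
  have hint2 : Integrable (fun x : E3 => Γ ‖x‖) := hint.congr hcongr
  rw [integral_congr_ae hcongr, rad_int Γ]
  rw [rad_intble (f := Γ)] at hint2
  have hint3 : IntegrableOn (fun r => r ^ 2 * Γ r) (Icc (1/2) 2) :=
    hint2.mono_set (fun r hr => lt_of_lt_of_le (by norm_num) hr.1)
  have hint4 : IntegrableOn Γ (Icc (1/2) 2) := by
    have hc : ContinuousOn (fun r : ℝ => (r ^ 2)⁻¹) (Icc (1/2) 2) := by
      refine ContinuousOn.inv₀ (by fun_prop) (fun r hr => ?_)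
      have : 0 < r := lt_of_lt_of_le (by norm_num) hr.1
      positivity
    refine (hint3.continuousOn_mul hc isCompact_Icc).congr_fun (fun r hr => ?_) measurableSet_Icc
    have : 0 < r := lt_of_lt_of_le (by norm_num) hr.1
    field_simp
  have h2 := h1 f hf0 hf hint4
  have h3 : ∫ r in Icc (1/2:ℝ) 2, r ^ 2 * Γ r ≤ ∫ r in Ioi (0:ℝ), r ^ 2 * Γ r := by
    refine setIntegral_mono_set hint2 ?_ ?_
    · refine ae_of_all _ (fun r => ?_)
      have := hΓ0 r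
      simp only [Pi.zero_apply]
      positivity
    · exact (show Icc (1/2:ℝ) 2 ⊆ Ioi 0 from fun r hr => lt_of_lt_of_le (by norm_num) hr.1).eventuallyLE
  have h4 : 1 / 4 * ∫ r in Icc (1/2:ℝ) 2, Γ r ≤ ∫ r in Icc (1/2:ℝ) 2, r ^ 2 * Γ r := by
    rw [← integral_const_mul]
    refine setIntegral_mono_on (hint4.const_mul _) hint3 measurableSet_Icc (fun r hr => ?_)
    have : 1 / 4 ≤ r ^ 2 := by nlinarith [hr.1]
    exact mul_le_mul_of_nonneg_right this (hΓ0 r)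
  rw [intervalIntegral.integral_of_le (by norm_num), ← integral_Icc_eq_integral_Ioc] at h2
  have hπ := Real.pi_pos
  calc Real.pi * c ≤ Real.pi * ∫ r in Icc (1/2:ℝ) 2, Γ r := mul_le_mul_of_nonneg_left h2 hπ.le
    _ = 4 * Real.pi * (1 / 4 * ∫ r in Icc (1/2:ℝ) 2, Γ r) := by ring
    _ ≤ 4 * Real.pi * ∫ r in Ioi (0:ℝ), r ^ 2 * Γ r :=
        mul_le_mul_of_nonneg_left (h4.trans h3) (by positivity)

end Pool.Agent.Q235.TC
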