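import Mathlib
import Pool.Agent.Q235.TC.Defs
import Pool.Agent.Q235.TC.Gap
import Pool.Agent.TH791.Coul

/-!
# Smooth trial densities converging to the Thomas-Fermi density
-/

set_option autoImplicit false

open Set Filter Topology MeasureTheory
open scoped ContDiff

namespace Pool.Agent.Q235.TC

/-- cut-off -/
noncomputable def cut (n : ℕ) (x : E3) : ℝ :=
  Real.smoothTransition (n * ‖x‖ ^ 2 - 1) * Real.smoothTransition (n * (1 - ‖x‖ ^ 2) - 1)

/-- root of the trial density -/
noncomputable def ps (p : ℝ) (n : ℕ) (x : E3) : ℝ := cut n x * (1 / ‖x‖ - 1) ^ kap p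

lemma cut_nonneg (n : ℕ) (x : E3) : 0 ≤ cut n x :=
  mul_nonneg (Real.smoothTransition.nonneg _) (Real.smoothTransition.nonneg _)

lemma cut_le_one (n : ℕ) (x : E3) : cut n x ≤ 1 :=
  mul_le_one₀ (Real.smoothTransition.le_one _) (Real.smoothTransition.nonneg _)
    (Real.smoothTransition.le_one _)

lemma cut_contDiff (n : ℕ) : ContDiff ℝ ∞ (cut n) := by
  unfold cut
  refine ContDiff.mul ?_ ?_
  · exact Real.smoothTransition.contDiff.comp
      ((contDiff_const.mul (contDiff_norm_sq ℝ)).sub contDiff_const)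
  · exact Real.smoothTransition.contDiff.comp
      ((contDiff_const.mul (contDiff_const.sub (contDiff_norm_sq ℝ))).sub contDiff_const)

lemma cut_zero {n : ℕ} {x : E3} (h : n * ‖x‖ ^ 2 ≤ 1 ∨ n * (1 - ‖x‖ ^ 2) ≤ 1) : cut n x = 0 := by
  unfold cut
  rcases h with h | h
  · rw [Real.smoothTransition.zero_of_nonpos (by linarith), zero_mul]
  · rw [Real.smoothTransition.zero_of_nonpos (x := n * (1 - ‖x‖ ^ 2) - 1) (by linarith), mul_zero]

lemma cut_out {n : ℕ} {x : E3} (h : 1 ≤ ‖x‖) : cut n x = 0 := by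
  apply cut_zero
  right
  have h1 : 1 - ‖x‖ ^ 2 ≤ 0 := by nlinarith
  have h2 : (0:ℝ) ≤ n := Nat.cast_nonneg n
  nlinarith

lemma ps_contDiff (p : ℝ) (n : ℕ) : ContDiff ℝ ∞ (ps p n) := by
  rw [contDiff_iff_contDiffAt]
  intro x
  by_cases h1 : n * ‖x‖ ^ 2 < 1
  · have hev : ps p n =ᶠ[𝓝 x] fun _ => 0 := by
      have : ∀ᶠ y : E3 in 𝓝 x, n * ‖y‖ ^ 2 < 1 :=
        (continuous_const.mul (continuous_norm.pow 2)).continuousAt.eventually (gt_mem_nhds h1)
      filter_upwards [this] with y hy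
      unfold ps
      rw [cut_zero (Or.inl hy.le), zero_mul]
    exact contDiffAt_const.congr_of_eventuallyEq hev
  by_cases h2 : n * (1 - ‖x‖ ^ 2) < 1
  · have hev : ps p n =ᶠ[𝓝 x] fun _ => 0 := by
      have : ∀ᶠ y : E3 in 𝓝 x, n * (1 - ‖y‖ ^ 2) < 1 :=
        (continuous_const.mul (continuous_const.sub (continuous_norm.pow 2))).continuousAt.eventually
          (gt_mem_nhds h2)
      filter_upwards [this] with y hy
      unfold ps
      rw [cut_zero (Or.inr hy.le), zero_mul]
    exact contDiffAt_const.congr_of_eventuallyEq hev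
  push Not at h1 h2
  have hn0 : (0:ℝ) ≤ n := Nat.cast_nonneg n
  have hx0 : 0 < ‖x‖ := by
    rcases eq_or_lt_of_le (norm_nonneg x) with h | h
    · rw [← h] at h1; norm_num at h1
    · exact h
  have hx1 : ‖x‖ < 1 := by
    by_contra hc
    push Not at hc
    have : 1 - ‖x‖ ^ 2 ≤ 0 := by nlinarith
    nlinarith
  have hxne : x ≠ 0 := norm_pos_iff.mp hx0
  have hpos : 0 < 1 / ‖x‖ - 1 := by
    rw [sub_pos, lt_div_iff₀ hx0]; linarith
  refine (cut_contDiff n).contDiffAt.mul ?_
  refine ContDiffAt.rpow_const_of_ne ?_ hpos.ne'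
  exact (contDiffAt_const.div (contDiffAt_norm ℝ hxne) hx0.ne').sub contDiffAt_const

lemma ps_out {p : ℝ} {n : ℕ} {x : E3} (h : 1 ≤ ‖x‖) : ps p n x = 0 := by
  unfold ps; rw [cut_out h, zero_mul]

lemma ps_eq (p : ℝ) (n : ℕ) (x : E3) (hx : x ≠ 0) : ps p n x = cut n x * ww ‖x‖ ^ kap p := by
  unfold ps
  rcases lt_or_ge ‖x‖ 1 with h | h
  · congr 2
    unfold ww
    rw [max_eq_left]
    have : 0 < ‖x‖ := norm_pos_iff.mpr hx
    rw [sub_nonneg, le_div_iff₀ this]; linarith
  · rw [cut_out h, zero_mul, zero_mul]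

lemma ps_zero (p : ℝ) (n : ℕ) : ps p n 0 = 0 := by
  unfold ps
  rw [cut_zero (Or.inl (by norm_num)), zero_mul]

lemma ps_nonneg (p : ℝ) (n : ℕ) (x : E3) : 0 ≤ ps p n x := by
  rcases eq_or_ne x 0 with h | h
  · rw [h, ps_zero]
  · rw [ps_eq p n x h]
    exact mul_nonneg (cut_nonneg n x) (Real.rpow_nonneg (ww_nonneg _) _)

lemma ps_supp (p : ℝ) (n : ℕ) : HasCompactSupport (ps p n) :=
  HasCompactSupport.intro (isCompact_closedBall (0:E3) 1) (fun x hx => by
    apply ps_out
    rw [mem_closedBall_zero_iff] at hx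
    linarith)

/-- the trial density -/
noncomputable def rn (p : ℝ) (n : ℕ) (x : E3) : ℝ := ps p n x ^ 2

/-- its gradient -/
noncomputable def gn (p : ℝ) (n : ℕ) (x : E3) : E3 :=
  (InnerProductSpace.toDual ℝ E3).symm (fderiv ℝ (ps p n) x)

lemma rn_cont (p : ℝ) (n : ℕ) : Continuous (rn p n) := (ps_contDiff p n).continuous.pow 2

lemma rn_supp (p : ℝ) (n : ℕ) : HasCompactSupport (rn p n) :=
  (ps_supp p n).comp_left (g := fun t : ℝ => t ^ 2) (by norm_num)

lemma rn_rpow_int (p : ℝ) (n : ℕ) {q : ℝ} (hq : 0 < q) : Integrable (fun x => rn p n x ^ q) := by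
  refine Continuous.integrable_of_hasCompactSupport ?_ ?_
  · exact (rn_cont p n).rpow_const (fun x => Or.inr hq.le)
  · exact (rn_supp p n).comp_left (g := fun t : ℝ => t ^ q) (Real.zero_rpow hq.ne')

lemma rn_int (p : ℝ) (n : ℕ) : Integrable (rn p n) :=
  (rn_cont p n).integrable_of_hasCompactSupport (rn_supp p n)

open Pool.Agent.TH791.Cl in
lemma coul_int (a : E3 → ℝ) (ha : Nice a) :
    Integrable (fun q : E3 × E3 => a q.1 * a q.2 / ‖q.1 - q.2‖) := by
  obtain ⟨B, hB⟩ := nice_bound a ha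
  have hm := pd_meas2 a a ha.1 ha.1
  have hm' : AEStronglyMeasurable (fun q : E3 × E3 => a q.1 * a q.2 / ‖q.1 - q.2‖)
      ((volume : Measure E3).prod volume) := hm.aestronglyMeasurable
  show Integrable (fun q : E3 × E3 => a q.1 * a q.2 / ‖q.1 - q.2‖) ((volume : Measure E3).prod volume)
  rw [integrable_prod_iff hm']
  constructor
  · refine ae_of_all _ (fun x => ?_)
    have h1 := (hB x).1.const_mul (a x)
    refine h1.congr (ae_of_all _ (fun y => ?_))
    show a x * (a y / ‖x - y‖) = a x * a y / ‖x - y‖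
    rw [mul_div_assoc]
  · refine (ha.2.1.abs.mul_const B).mono' ?_ ?_
    · have : StronglyMeasurable (fun x : E3 => ∫ y : E3, ‖a x * a y / ‖x - y‖‖) :=
        StronglyMeasurable.integral_prod_right (f := fun x y => ‖a x * a y / ‖x - y‖‖) hm.norm.stronglyMeasurable
      exact this.aestronglyMeasurable
    · refine ae_of_all _ (fun x => ?_)
      have e1 : (∫ y : E3, ‖a x * a y / ‖x - y‖‖) = |a x| * ∫ y, |a y| / ‖x - y‖ := by
        rw [← integral_const_mul]
        apply integral_congr_ae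
        refine ae_of_all _ (fun y => ?_)
        show ‖a x * a y / ‖x - y‖‖ = |a x| * (|a y| / ‖x - y‖)
        rw [norm_div, norm_mul, norm_norm, Real.norm_eq_abs, Real.norm_eq_abs, mul_div_assoc]
      show ‖∫ y : E3, ‖a x * a y / ‖x - y‖‖‖ ≤ |a x| * B
      rw [e1, Real.norm_eq_abs, abs_of_nonneg]
      · exact mul_le_mul_of_nonneg_left (hB x).2 (abs_nonneg _)
      · apply mul_nonneg (abs_nonneg _)
        exact integral_nonneg (fun y => by positivity)

lemma rn_nice (p : ℝ) (n : ℕ) : Pool.Agent.TH791.Cl.Nice (rn p n) := by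
  refine ⟨(rn_cont p n).measurable, rn_int p n, ?_⟩
  refine (rn_rpow_int p n (q := 5/3) (by norm_num)).congr (ae_of_all _ fun x => ?_)
  simp only
  rw [abs_of_nonneg (by unfold rn; positivity)]

theorem rn_adm {p : ℝ} (hp : 0 < p) (n : ℕ) : Admissible p (rn p n) (gn p n) := by
  have hs := ps_contDiff p n
  have hsq : ∀ x, √(rn p n x) = ps p n x := fun x => Real.sqrt_sq (ps_nonneg p n x)
  have hfc : Continuous (fderiv ℝ (ps p n)) := hs.continuous_fderiv (by simp)
  have hfs : HasCompactSupport (fderiv ℝ (ps p n)) := (ps_supp p n).fderiv ℝ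
  refine ⟨fun x => sq_nonneg _, rn_int p n, rn_rpow_int p n hp, coul_int _ (rn_nice p n), ?_, ?_⟩
  · refine Continuous.memLp_of_hasCompactSupport ?_ ?_
    · exact (InnerProductSpace.toDual ℝ E3).symm.continuous.comp hfc
    · exact hfs.comp_left (g := (InnerProductSpace.toDual ℝ E3).symm) (map_zero _)
  · intro φ hφ hφc v
    have hφf : Continuous (fderiv ℝ φ) := hφ.continuous_fderiv (by simp)
    have h := integral_mul_fderiv_eq_neg_fderiv_mul_of_integrable (μ := (volume : Measure E3))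
      (f := ps p n) (g := φ) (v := v) ?_ ?_ ?_ ?_ ?_
    · simp only [hsq]
      rw [h]
      congr 1
      congr 1
      funext x
      rw [gn, InnerProductSpace.toDual_symm_apply]
    · exact Continuous.integrable_of_hasCompactSupport
        ((hfc.clm_apply continuous_const).mul hφ.continuous) (hφc.mul_left)
    · exact Continuous.integrable_of_hasCompactSupport
        (hs.continuous.mul (hφf.clm_apply continuous_const)) ((ps_supp p n).mul_right)
    · exact Continuous.integrable_of_hasCompactSupport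
        (hs.continuous.mul hφ.continuous) ((ps_supp p n).mul_right)
    · intro x _
      exact (hs.differentiable (by simp)) x
    · intro x _
      exact (hφ.differentiable (by simp)) x

end Pool.Agent.Q235.TC
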