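import Mathlib
import Pool.Agent.Q235.TC.Trial

/-!
# The Thomas-Fermi limit: lower bound and convergence of the trial energies
-/

set_option autoImplicit false

open Set Filter Topology MeasureTheory
open scoped ContDiff

namespace Pool.Agent.Q235.TC

lemma ww_le_inv {r : ℝ} (hr : 0 < r) : ww r ≤ 1 / r := by
  unfold ww
  exact max_le (by linarith) (by positivity)

lemma ww_zero {r : ℝ} (hr : 1 ≤ r) : ww r = 0 := by
  unfold ww
  rw [max_eq_right]
  rw [sub_nonpos, div_le_one (by linarith)]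
  exact hr

open Pool.Agent.Q233.TFShell in
lemma ww_int {s : ℝ} (hs : 0 < s) (hs3 : s < 3) : Integrable (fun x : E3 => ww ‖x‖ ^ s) := by
  rw [rad_intble (f := fun r => ww r ^ s), ← Ioc_union_Ioi_eq_Ioi zero_le_one]
  refine IntegrableOn.union ?_ ?_
  · have h1 : IntegrableOn (fun r : ℝ => r ^ (2 - s)) (Ioc 0 1) := by
      rw [← intervalIntegrable_iff_integrableOn_Ioc_of_le zero_le_one]
      exact intervalIntegral.intervalIntegrable_rpow' (by linarith)
    refine Integrable.mono' h1 ((measurable_id.pow_const 2).mul (ww_meas.pow_const s)).aestronglyMeasurable ?_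
    rw [ae_restrict_iff' measurableSet_Ioc]
    refine ae_of_all _ (fun r hr => ?_)
    have hr0 : 0 < r := hr.1
    have h2 := Real.rpow_nonneg (ww_nonneg r) s
    rw [Real.norm_of_nonneg (by positivity)]
    calc r ^ 2 * ww r ^ s ≤ r ^ 2 * (1 / r) ^ s :=
          mul_le_mul_of_nonneg_left (Real.rpow_le_rpow (ww_nonneg r) (ww_le_inv hr0) hs.le) (by positivity)
      _ = r ^ (2 - s) := by
          rw [Real.rpow_sub hr0, one_div, Real.inv_rpow hr0.le]
          norm_cast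
  · have hz : IntegrableOn (fun _ : ℝ => (0:ℝ)) (Ioi (1:ℝ)) := integrableOn_zero
    refine hz.congr_fun (fun r hr => ?_) measurableSet_Ioi
    rw [ww_zero (le_of_lt hr), Real.zero_rpow hs.ne', mul_zero]

/-- the conjugate exponent -/
noncomputable def cj (p : ℝ) : ℝ := p / (p - 1)

/-- the mass bound -/
noncomputable def lam0 (p : ℝ) : ℝ := ∫ x : E3, ww ‖x‖ ^ (2 * kap p)

/-- the Thomas-Fermi energy -/
noncomputable def C0 (p : ℝ) : ℝ := (∫ x : E3, ww ‖x‖ ^ cj p) / cj p + lam0 p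

lemma cj_bd {p : ℝ} (hp : 3 / 2 < p) : 0 < cj p ∧ cj p < 3 := by
  have : 0 < p - 1 := by linarith
  unfold cj
  refine ⟨by positivity, ?_⟩
  rw [div_lt_iff₀ this]; linarith

lemma kap_bd {p : ℝ} (hp : 3 / 2 < p) : 0 < 2 * kap p ∧ 2 * kap p < 3 := by
  have : 0 < p - 1 := by linarith
  unfold kap
  refine ⟨by positivity, ?_⟩
  have e : 2 * (1 / (2 * (p - 1))) = 1 / (p - 1) := by field_simp
  rw [e, div_lt_iff₀ this]; linarith

lemma lam0_pos {p : ℝ} (hp : 3 / 2 < p) : 0 < lam0 p := by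
  obtain ⟨h1, h2⟩ := kap_bd hp
  unfold lam0
  rw [integral_pos_iff_support_of_nonneg (fun x => Real.rpow_nonneg (ww_nonneg _) _) (ww_int h1 h2)]
  have hsub : Metric.ball (0:E3) 1 \ {0} ⊆ Function.support (fun x : E3 => ww ‖x‖ ^ (2 * kap p)) := by
    rintro x ⟨hx1, hx0⟩
    rw [mem_ball_zero_iff] at hx1
    have hx : 0 < ‖x‖ := norm_pos_iff.mpr (by simpa using hx0)
    rw [Function.mem_support]
    have : 0 < ww ‖x‖ := by
      unfold ww
      apply lt_max_of_lt_left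
      rw [sub_pos, lt_div_iff₀ hx]; linarith
    exact (Real.rpow_pos_of_pos this _).ne'
  refine lt_of_lt_of_le ?_ (measure_mono hsub)
  rw [measure_sdiff_null (by simp)]
  exact Metric.measure_ball_pos volume 0 one_pos

variable {ρ : E3 → ℝ} {g : E3 → E3}

/-- integrability of the pieces -/
lemma pieces {p : ℝ} (hp : 3 / 2 < p) (h : Admissible p ρ g) :
    Integrable (fun x => ρ x * ww ‖x‖) ∧ Integrable (fun x => ρ x / ‖x‖) ∧
    Integrable (fun x => G p (ρ x) (ww ‖x‖)) := by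
  have hp1 : 1 < p := by linarith
  obtain ⟨c1, c2⟩ := cj_bd hp
  have hW := ww_int c1 c2
  have hwm : AEStronglyMeasurable (fun x : E3 => ww ‖x‖) volume :=
    (ww_meas.comp measurable_norm).aestronglyMeasurable
  have i1 : Integrable (fun x => ρ x * ww ‖x‖) := by
    refine Integrable.mono' ((h.integrable_rpow.div_const p).add (hW.div_const (cj p)))
      (h.integrable.aestronglyMeasurable.mul hwm) (ae_of_all _ fun x => ?_)
    rw [Real.norm_of_nonneg (mul_nonneg (h.nonneg x) (ww_nonneg _))]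
    exact Real.young_inequality_of_nonneg (h.nonneg x) (ww_nonneg _) (conj hp1)
  have hne : ∀ᵐ x : E3, x ≠ 0 := by
    rw [ae_iff]; simp
  have hnm : AEStronglyMeasurable (fun x : E3 => ‖x‖⁻¹) volume :=
    (measurable_norm.inv).aestronglyMeasurable
  refine ⟨i1, ?_, ?_⟩
  · refine Integrable.mono' (i1.add h.integrable) ?_ ?_
    · exact h.integrable.aestronglyMeasurable.mul hnm
    · filter_upwards [hne] with x hx
      have hx0 : 0 < ‖x‖ := norm_pos_iff.mpr hx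
      rw [Real.norm_of_nonneg (div_nonneg (h.nonneg x) hx0.le)]
      have h1 : 1 / ‖x‖ - 1 ≤ ww ‖x‖ := le_max_left _ _
      have h2 := mul_le_mul_of_nonneg_left h1 (h.nonneg x)
      simp only [Pi.add_apply]
      have h3 : ρ x / ‖x‖ = ρ x * (1 / ‖x‖ - 1) + ρ x := by ring
      rw [h3]; linarith
  · unfold G
    exact ((h.integrable_rpow.div_const p).sub i1).add (hW.div_const _)

/-- the lower bound for the energy -/
lemma energy_lower {p A z : ℝ} (hp : 3 / 2 < p) (hA : 0 ≤ A) (hz : 0 ≤ z) (h : Admissible p ρ g)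
    (hm : ∫ x, ρ x ≤ lam0 p) :
    z * ((∫ x, G p (ρ x) (ww ‖x‖)) - C0 p) ≤ energy A z p z ρ g := by
  have hp1 : 1 < p := by linarith
  obtain ⟨c1, c2⟩ := cj_bd hp
  have hW := ww_int c1 c2
  obtain ⟨i1, i2, i3⟩ := pieces hp h
  have hne : ∀ᵐ x : E3, x ≠ 0 := by
    rw [ae_iff]; simp
  have e1 : ∫ x, G p (ρ x) (ww ‖x‖) = (∫ x, ρ x ^ p) / p - (∫ x, ρ x * ww ‖x‖)
      + (∫ x : E3, ww ‖x‖ ^ cj p) / cj p := by
    have hA1 : Integrable (fun x => ρ x ^ p / p) := h.integrable_rpow.div_const p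
    have hA2 : Integrable (fun x => ρ x ^ p / p - ρ x * ww ‖x‖) := hA1.sub i1
    have hA3 : Integrable (fun x : E3 => ww ‖x‖ ^ cj p / cj p) := hW.div_const _
    unfold G
    rw [show (fun x => ρ x ^ p / p - ρ x * ww ‖x‖ + ww ‖x‖ ^ (p / (p - 1)) / (p / (p - 1)))
      = fun x => (ρ x ^ p / p - ρ x * ww ‖x‖) + ww ‖x‖ ^ cj p / cj p from rfl,
      integral_add hA2 hA3, integral_sub hA1 i1, integral_div, integral_div]
  have e2 : ∫ x, z / ‖x‖ * ρ x = z * ∫ x, ρ x / ‖x‖ := by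
    rw [← integral_const_mul]
    congr 1; funext x; ring
  have e3 : ∫ x, ρ x / ‖x‖ ≤ (∫ x, ρ x * ww ‖x‖) + ∫ x, ρ x := by
    rw [← integral_add i1 h.integrable]
    refine integral_mono_ae i2 (i1.add h.integrable) ?_
    filter_upwards [hne] with x hx
    have h1 : 1 / ‖x‖ - 1 ≤ ww ‖x‖ := le_max_left _ _
    have h2 := mul_le_mul_of_nonneg_left h1 (h.nonneg x)
    have h3 : ρ x / ‖x‖ = ρ x * (1 / ‖x‖ - 1) + ρ x := by ring
    rw [h3]; linarith
  have e4 : 0 ≤ ∫ x, ‖g x‖ ^ 2 := integral_nonneg fun x => by positivity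
  have e5 : 0 ≤ ∫ q : E3 × E3, ρ q.1 * ρ q.2 / ‖q.1 - q.2‖ :=
    integral_nonneg fun q => div_nonneg (mul_nonneg (h.nonneg _) (h.nonneg _)) (norm_nonneg _)
  have e6 := mul_nonneg hA e4
  unfold energy
  rw [e1, e2]
  unfold C0
  have e7 : (∫ x, ρ x ^ p) / p - (∫ x, ρ x * ww ‖x‖) + (∫ x : E3, ww ‖x‖ ^ cj p) / cj p
      - ((∫ x : E3, ww ‖x‖ ^ cj p) / cj p + lam0 p) ≤ (∫ x, ρ x ^ p) / p - ∫ x, ρ x / ‖x‖ := by
    linarith
  have e8 := mul_le_mul_of_nonneg_left e7 hz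
  have e9 : z * ((∫ x, ρ x ^ p) / p - ∫ x, ρ x / ‖x‖) = z / p * (∫ x, ρ x ^ p) - z * ∫ x, ρ x / ‖x‖ := by ring
  linarith

lemma cut_tendsto {x : E3} (hx : x ≠ 0) (h1 : ‖x‖ < 1) : ∀ᶠ n : ℕ in atTop, cut n x = 1 := by
  have hx0 : 0 < ‖x‖ := norm_pos_iff.mpr hx
  have hpos1 : 0 < ‖x‖ ^ 2 := by positivity
  have hpos2 : 0 < 1 - ‖x‖ ^ 2 := by nlinarith
  have t1 : ∀ᶠ n : ℕ in atTop, 2 ≤ n * ‖x‖ ^ 2 :=
    (tendsto_natCast_atTop_atTop.atTop_mul_const hpos1).eventually_ge_atTop 2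
  have t2 : ∀ᶠ n : ℕ in atTop, 2 ≤ n * (1 - ‖x‖ ^ 2) :=
    (tendsto_natCast_atTop_atTop.atTop_mul_const hpos2).eventually_ge_atTop 2
  filter_upwards [t1, t2] with n hn1 hn2
  unfold cut
  rw [Real.smoothTransition.one_of_one_le (by linarith), Real.smoothTransition.one_of_one_le (by linarith),
    one_mul]

lemma rn_le (p : ℝ) (n : ℕ) {x : E3} (hx : x ≠ 0) : rn p n x ≤ ww ‖x‖ ^ (2 * kap p) := by
  unfold rn
  rw [ps_eq p n x hx]
  have h1 : ww ‖x‖ ^ (2 * kap p) = (ww ‖x‖ ^ kap p) ^ 2 := by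
    rw [← Real.rpow_natCast, ← Real.rpow_mul (ww_nonneg _)]; congr 1; push_cast; ring
  rw [h1]
  have h2 := Real.rpow_nonneg (ww_nonneg ‖x‖) (kap p)
  refine pow_le_pow_left₀ (mul_nonneg (cut_nonneg n x) h2) ?_ 2
  exact mul_le_of_le_one_left h2 (cut_le_one n x)

lemma rn_tendsto {p : ℝ} (hp : 3 / 2 < p) {x : E3} (hx : x ≠ 0) :
    ∀ᶠ n : ℕ in atTop, rn p n x = ww ‖x‖ ^ (2 * kap p) := by
  have hk := (kap_bd hp).1
  have h1 : ww ‖x‖ ^ (2 * kap p) = (ww ‖x‖ ^ kap p) ^ 2 := by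
    rw [← Real.rpow_natCast, ← Real.rpow_mul (ww_nonneg _)]; congr 1; push_cast; ring
  rcases lt_or_ge ‖x‖ 1 with h | h
  · filter_upwards [cut_tendsto hx h] with n hn
    unfold rn
    rw [ps_eq p n x hx, hn, one_mul, h1]
  · refine Eventually.of_forall (fun n => ?_)
    unfold rn
    rw [ps_out h, ww_zero h, Real.zero_rpow hk.ne']
    norm_num

lemma rn_mass {p : ℝ} (hp : 3 / 2 < p) (n : ℕ) : ∫ x, rn p n x ≤ lam0 p := by
  obtain ⟨h1, h2⟩ := kap_bd hp
  have hne : ∀ᵐ x : E3, x ≠ 0 := by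
    rw [ae_iff]; simp
  refine integral_mono_ae (rn_int p n) (ww_int h1 h2) ?_
  filter_upwards [hne] with x hx
  exact rn_le p n hx

/-- the Thomas-Fermi part of the trial energies converges -/
lemma tf_tendsto {p : ℝ} (hp : 3 / 2 < p) :
    Tendsto (fun n : ℕ => (∫ x, rn p n x ^ p) / p - ∫ x, rn p n x / ‖x‖) atTop (𝓝 (-(C0 p))) := by
  have hp1 : 1 < p := by linarith
  have hp0 : 0 < p := by linarith
  obtain ⟨c1, c2⟩ := cj_bd hp
  obtain ⟨k1, k2⟩ := kap_bd hp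
  have hW := ww_int c1 c2
  have hK := ww_int k1 k2
  have hne : ∀ᵐ x : E3, x ≠ 0 := by
    rw [ae_iff]; simp
  have hpow : ∀ x : E3, (ww ‖x‖ ^ (2 * kap p)) ^ p = ww ‖x‖ ^ cj p := by
    intro x
    rw [← Real.rpow_mul (ww_nonneg _)]
    congr 1
    unfold kap cj
    have : p - 1 ≠ 0 := by linarith
    field_simp
  have hdiv : ∀ x : E3, x ≠ 0 → ww ‖x‖ ^ (2 * kap p) / ‖x‖ = ww ‖x‖ ^ cj p + ww ‖x‖ ^ (2 * kap p) := by
    intro x hx
    have hx0 : 0 < ‖x‖ := norm_pos_iff.mpr hx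
    rcases lt_or_ge ‖x‖ 1 with h | h
    · have hpos : 0 < 1 / ‖x‖ - 1 := by
        rw [sub_pos, lt_div_iff₀ hx0]; linarith
      have hw : ww ‖x‖ = 1 / ‖x‖ - 1 := by unfold ww; exact max_eq_left hpos.le
      have hw0 : 0 < ww ‖x‖ := by rw [hw]; exact hpos
      have e1 : ww ‖x‖ ^ cj p = ww ‖x‖ ^ (2 * kap p) * ww ‖x‖ := by
        have : cj p = 2 * kap p + 1 := by
          unfold kap cj
          have : p - 1 ≠ 0 := by linarith
          field_simp
          ring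
        rw [this, Real.rpow_add hw0, Real.rpow_one]
      rw [e1]
      nth_rewrite 3 [hw]
      ring
    · rw [ww_zero h, Real.zero_rpow k1.ne', Real.zero_rpow c1.ne']
      simp
  have t1 : Tendsto (fun n : ℕ => ∫ x, rn p n x ^ p) atTop (𝓝 (∫ x : E3, ww ‖x‖ ^ cj p)) := by
    refine tendsto_integral_of_dominated_convergence (fun x : E3 => ww ‖x‖ ^ cj p)
      (fun n => (rn_rpow_int p n hp0).aestronglyMeasurable) hW ?_ ?_
    · intro n
      filter_upwards [hne] with x hx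
      have h0 : 0 ≤ rn p n x := sq_nonneg _
      rw [Real.norm_of_nonneg (Real.rpow_nonneg h0 _), ← hpow x]
      exact Real.rpow_le_rpow h0 (rn_le p n hx) hp0.le
    · filter_upwards [hne] with x hx
      refine tendsto_const_nhds.congr' ?_
      filter_upwards [rn_tendsto hp hx] with n hn
      rw [hn, hpow]
  have t2 : Tendsto (fun n : ℕ => ∫ x, rn p n x / ‖x‖) atTop
      (𝓝 (∫ x : E3, (ww ‖x‖ ^ cj p + ww ‖x‖ ^ (2 * kap p)))) := by
    refine tendsto_integral_of_dominated_convergence (fun x : E3 => ww ‖x‖ ^ cj p + ww ‖x‖ ^ (2 * kap p))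
      (fun n => ?_) (hW.add hK) ?_ ?_
    · have : Measurable (fun x : E3 => rn p n x / ‖x‖) := (rn_cont p n).measurable.div measurable_norm
      exact this.aestronglyMeasurable
    · intro n
      filter_upwards [hne] with x hx
      have h0 : 0 ≤ rn p n x := sq_nonneg _
      rw [Real.norm_of_nonneg (div_nonneg h0 (norm_nonneg _)), ← hdiv x hx]
      exact div_le_div_of_nonneg_right (rn_le p n hx) (norm_nonneg _)
    · filter_upwards [hne] with x hx
      refine tendsto_const_nhds.congr' ?_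
      filter_upwards [rn_tendsto hp hx] with n hn
      rw [hn, hdiv x hx]
  have t3 := (t1.div_const p).sub t2
  have e : (∫ x : E3, ww ‖x‖ ^ cj p) / p - ∫ x : E3, (ww ‖x‖ ^ cj p + ww ‖x‖ ^ (2 * kap p)) = -(C0 p) := by
    rw [integral_add hW hK]
    unfold C0 lam0
    have h1 : 1 / p + 1 / cj p = 1 := by
      unfold cj
      have : p - 1 ≠ 0 := by linarith
      field_simp
      ring
    have h2 : (∫ x : E3, ww ‖x‖ ^ cj p) = (∫ x : E3, ww ‖x‖ ^ cj p) / p + (∫ x : E3, ww ‖x‖ ^ cj p) / cj p := by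
      calc (∫ x : E3, ww ‖x‖ ^ cj p) = (∫ x : E3, ww ‖x‖ ^ cj p) * (1 / p + 1 / cj p) := by rw [h1, mul_one]
        _ = _ := by ring
    linarith
  rwa [e] at t3

/-- **the energy gap** -/
theorem main {p : ℝ} (hp : 3 / 2 < p) {A : ℝ} (hA : 0 < A) :
    ∃ z₀ : ℝ, 0 < z₀ ∧ ∀ z : ℝ, z₀ ≤ z → ∃ η : ℝ, 0 < η ∧ ∃ (ρ₀ : E3 → ℝ) (g₀ : E3 → E3),
      Admissible p ρ₀ g₀ ∧ ∫ x, ρ₀ x ≤ lam0 p ∧
      ∀ (ρ : E3 → ℝ) (g : E3 → E3), Admissible p ρ g → ∫ x, ρ x ≤ lam0 p → HasConvexRoot ρ →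
        energy A z p z ρ₀ g₀ + η ≤ energy A z p z ρ g := by
  have hp0 : 0 < p := by linarith
  obtain ⟨c, hc, hgap⟩ := gap3 hp
  obtain ⟨n, hn⟩ := ((tf_tendsto hp).eventually (gt_mem_nhds (show -(C0 p) < -(C0 p) + c / 4 by linarith))).exists
  have hadm := rn_adm hp0 n
  obtain ⟨i1, i2, i3⟩ := pieces hp hadm
  set B : ℝ := A * (∫ x, ‖gn p n x‖ ^ 2) + 1 / 2 * ∫ q : E3 × E3, rn p n q.1 * rn p n q.2 / ‖q.1 - q.2‖ with hB
  have hB0 : 0 ≤ B := by
    have e4 : 0 ≤ ∫ x, ‖gn p n x‖ ^ 2 := integral_nonneg fun x => by positivity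
    have e5 : 0 ≤ ∫ q : E3 × E3, rn p n q.1 * rn p n q.2 / ‖q.1 - q.2‖ :=
      integral_nonneg fun q => div_nonneg (mul_nonneg (hadm.nonneg _) (hadm.nonneg _)) (norm_nonneg _)
    positivity
  refine ⟨4 * B / c + 1, by positivity, fun z hz => ⟨z * (c / 2), ?_, rn p n, gn p n, hadm, rn_mass hp n, ?_⟩⟩
  · have : 0 < z := lt_of_lt_of_le (by positivity) hz
    positivity
  intro ρ g h hm hconv
  have hz0 : 0 < z := lt_of_lt_of_le (by positivity) hz
  have h1 := energy_lower (A := A) hp hA.le hz0.le h hm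
  have h2 := hgap ρ h.nonneg (pieces hp h).2.2 hconv
  have h3 : B ≤ z * (c / 4) := by
    have : 4 * B / c ≤ z := by linarith
    rw [div_le_iff₀ hc] at this
    linarith
  have e2 : ∫ x, z / ‖x‖ * rn p n x = z * ∫ x, rn p n x / ‖x‖ := by
    rw [← integral_const_mul]
    congr 1; funext x; ring
  have h4 : energy A z p z (rn p n) (gn p n) = z * ((∫ x, rn p n x ^ p) / p - ∫ x, rn p n x / ‖x‖) + B := by
    unfold energy
    rw [e2, hB]
    ring
  have h5 := mul_lt_mul_of_pos_left hn hz0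
  have h6 := mul_le_mul_of_nonneg_left h2 hz0.le
  rw [h4]
  nlinarith

lemma logconvex_convex {ρ : E3 → ℝ} (h : HasLogConvexRoot ρ) : HasConvexRoot ρ := by
  obtain ⟨f, hf0, hf, hae⟩ := h
  refine ⟨f, ?_, hae⟩
  have h1 : ConvexOn ℝ (Ici 0) (fun r => Real.exp (Real.log (f r))) := by
    refine ⟨convex_Ici 0, fun x hx y hy a b ha hb hab => ?_⟩
    have h2 := hf.2 hx hy ha hb hab
    have h3 := convexOn_exp.2 (mem_univ (Real.log (f x))) (mem_univ (Real.log (f y))) ha hb hab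
    exact (Real.exp_le_exp.mpr h2).trans h3
  refine h1.congr (fun r hr => ?_)
  exact Real.exp_log (hf0 r hr)

end Pool.Agent.Q235.TC
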